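import Pool.Agent.Y78.NK.Alg

set_option autoImplicit false

/-!
The family of projections onto the lines of the real plane, parametrised by the Cantor space, and a
free triple for set mappings on a set of cardinality `ℵ₂`.
-/

namespace Pool.Agent.Y78.NK

open scoped Matrix.Norms.L2Operator
open Cardinal

/-- the orthogonal projection onto the line of angle `θ` -/
noncomputable def Rot (θ : ℝ) : M2 :=
  !![((Real.cos θ * Real.cos θ : ℝ) : ℂ), ((Real.cos θ * Real.sin θ : ℝ) : ℂ);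
    ((Real.cos θ * Real.sin θ : ℝ) : ℂ), ((Real.sin θ * Real.sin θ : ℝ) : ℂ)]

theorem rot_cont : Continuous Rot := by
  refine continuous_matrix fun i j => ?_
  fin_cases i <;> fin_cases j <;> simp only [Rot] <;>
    simp <;> fun_prop

theorem rot_idem (θ : ℝ) : Rot θ * Rot θ = Rot θ := by
  have h := Real.cos_sq_add_sin_sq θ
  have h' : ((Real.cos θ : ℂ)) ^ 2 + (Real.sin θ : ℂ) ^ 2 = 1 := by exact_mod_cast h
  ext i j
  rw [Matrix.mul_apply, Fin.sum_univ_two]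
  fin_cases i <;> fin_cases j <;> simp [Rot] <;> simp only [← Complex.ofReal_cos, ← Complex.ofReal_sin]
  · linear_combination (Real.cos θ : ℂ) ^ 2 * h'
  · linear_combination (Real.cos θ : ℂ) * (Real.sin θ : ℂ) * h'
  · linear_combination (Real.cos θ : ℂ) * (Real.sin θ : ℂ) * h'
  · linear_combination (Real.sin θ : ℂ) ^ 2 * h'

theorem rot_sa (θ : ℝ) : star (Rot θ) = Rot θ := by
  ext i j
  rw [Matrix.star_apply]
  fin_cases i <;> fin_cases j <;> simp [Rot, ← Complex.ofReal_cos, ← Complex.ofReal_sin]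

theorem rot_trace (θ : ℝ) : (Rot θ).trace = 1 := by
  have h := Real.cos_sq_add_sin_sq θ
  have h' : ((Real.cos θ : ℂ)) ^ 2 + (Real.sin θ : ℂ) ^ 2 = 1 := by exact_mod_cast h
  rw [Matrix.trace_fin_two]
  simp [Rot]
  simp only [← Complex.ofReal_cos, ← Complex.ofReal_sin]
  linear_combination h'

theorem rot_end : Rot (Real.pi / 2) = 1 - Rot 0 := by
  ext i j
  fin_cases i <;> fin_cases j <;> simp [Rot]

/-- the set of projections in question -/
def X0 : Set M2 := {0} ∪ Rot '' Set.Icc 0 (Real.pi / 2)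

theorem X0_compact : IsCompact X0 :=
  isCompact_singleton.union (isCompact_Icc.image rot_cont)

theorem exists_fam : ∃ F : Fam, (∃ s, F.P s = 0) ∧
    ∀ θ ∈ Set.Icc (0 : ℝ) (Real.pi / 2), ∃ s, F.P s = Rot θ := by
  have : CompactSpace X0 := isCompact_iff_compactSpace.1 X0_compact
  have : Nonempty X0 := ⟨⟨0, Or.inl rfl⟩⟩
  obtain ⟨f, hf, hs⟩ := exists_nat_bool_continuous_surjective_of_compact X0
  have hcases : ∀ s, ((f s : X0) : M2) = 0 ∨ ∃ θ, ((f s : X0) : M2) = Rot θ := by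
    intro s
    rcases (f s).2 with h | ⟨θ, _, h⟩
    · exact Or.inl h
    · exact Or.inr ⟨θ, h.symm⟩
  refine ⟨⟨fun s => (f s : M2), continuous_subtype_val.comp hf, ?_, ?_, ?_⟩, ?_, ?_⟩
  · intro s
    rcases hcases s with h | ⟨θ, h⟩
    · rw [h, mul_zero]
    · rw [h, rot_idem]
  · intro s
    rcases hcases s with h | ⟨θ, h⟩
    · rw [h, star_zero]
    · rw [h, rot_sa]
  · intro s
    rcases hcases s with h | ⟨θ, h⟩
    · exact Or.inl h
    · right
      rw [h, rot_trace]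
  · obtain ⟨s, hs'⟩ := hs ⟨0, Or.inl rfl⟩
    exact ⟨s, congrArg Subtype.val hs'⟩
  · intro θ hθ
    obtain ⟨s, hs'⟩ := hs ⟨Rot θ, Or.inr ⟨θ, hθ, rfl⟩⟩
    exact ⟨s, congrArg Subtype.val hs'⟩

/-! ### a free triple -/

theorem exists_avoid {I : Type} {ι : Type} (J : Set I) (κ : Cardinal.{0}) (hκ : ℵ₀ ≤ κ)
    (hι : #ι ≤ κ) (hJ : κ < #J) (B : ι → Finset I) : ∃ x ∈ J, ∀ t : ι, x ∉ B t := by
  by_contra hcon
  push Not at hcon
  have hsub : J ⊆ ⋃ t : ι, (B t : Set I) := by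
    intro x hx
    obtain ⟨t, ht⟩ := hcon x hx
    exact Set.mem_iUnion.2 ⟨t, ht⟩
  have h1 : #J ≤ #(⋃ t : ι, (B t : Set I)) := Cardinal.mk_le_mk_of_subset hsub
  have h2 : #(⋃ t : ι, (B t : Set I)) ≤ Cardinal.sum fun t : ι => #(B t : Set I) :=
    Cardinal.mk_iUnion_le_sum_mk
  have h3 : (Cardinal.sum fun t : ι => #(B t : Set I)) ≤ Cardinal.sum fun _ : ι => ℵ₀ := by
    apply Cardinal.sum_le_sum
    intro t
    exact (Cardinal.lt_aleph0_of_finite _).le
  have h4 : (Cardinal.sum fun _ : ι => ℵ₀) = #ι * ℵ₀ := by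
    rw [Cardinal.sum_const']
  have h5 : #ι * ℵ₀ ≤ κ := by
    calc #ι * ℵ₀ ≤ κ * κ := mul_le_mul' hι hκ
      _ = κ := Cardinal.mul_eq_self hκ
  exact absurd (hJ.trans_le (h1.trans (h2.trans (h3.trans (h4.le.trans h5))))) (lt_irrefl _)

/-- The index set: a set of cardinality `ℵ₂`. -/
noncomputable def Ind : Type := (aleph 2).out

theorem mk_Ind : #Ind = aleph 2 := Cardinal.mk_out _

theorem free3 (B1 B2 B3 : Ind → Ind → Finset Ind) :
    ∃ i j k : Ind, k ∉ B3 i j ∧ j ∉ B2 i k ∧ i ∉ B1 j k := by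
  have hsub : ∀ o : Ordinal.{0}, o ≤ 2 → ∃ J : Set Ind, #J = aleph o := by
    intro o ho
    apply Cardinal.le_mk_iff_exists_set.1
    rw [mk_Ind]
    exact Cardinal.aleph_le_aleph.2 ho
  obtain ⟨J1, hJ1⟩ := hsub 0 (by norm_num)
  obtain ⟨J2, hJ2⟩ := hsub 1 (by norm_num)
  obtain ⟨J3, hJ3⟩ := hsub 2 le_rfl
  have a0 : ∀ o : Ordinal.{0}, ℵ₀ ≤ aleph o := fun o => Cardinal.aleph0_le_aleph o
  have a01 : aleph 0 ≤ aleph 1 := Cardinal.aleph_le_aleph.2 (by norm_num)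
  obtain ⟨k, hk3, hk⟩ := exists_avoid (ι := J1 × J2) J3 (aleph 1) (a0 _)
    (by
      rw [Cardinal.mk_prod, Cardinal.lift_id, Cardinal.lift_id, hJ1, hJ2]
      calc aleph 0 * aleph 1 ≤ aleph 1 * aleph 1 := mul_le_mul' a01 le_rfl
        _ = aleph 1 := by rw [Cardinal.mul_eq_self (a0 _)])
    (by rw [hJ3]; exact Cardinal.aleph_lt_aleph.2 (by norm_num))
    (fun t => B3 t.1 t.2)
  obtain ⟨j, hj2, hj⟩ := exists_avoid (ι := J1) J2 (aleph 0) (a0 _)
    (by rw [hJ1])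
    (by rw [hJ2]; exact Cardinal.aleph_lt_aleph.2 (by norm_num))
    (fun t => B2 t k)
  have hinf : J1.Infinite := by
    rw [← Set.infinite_coe_iff, Cardinal.infinite_iff, hJ1]
    exact a0 _
  obtain ⟨i, hi1, hi⟩ := hinf.exists_notMem_finset (B1 j k)
  exact ⟨i, j, k, hk (⟨i, hi1⟩, ⟨j, hj2⟩), hj ⟨i, hi1⟩, hi⟩

end Pool.Agent.Y78.NK
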