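import Pool.Agent.Y78.NK.Alg
import Pool.Agent.Y78.NK.Urp

set_option autoImplicit false

/-!
Ranks of idempotent matrices over the algebra.
-/

namespace Pool.Agent.Y78.NK

open Pool.Agent.H494R3.NK
open scoped Matrix.Norms.L2Operator

theorem nat_trace {ι : Type} [Fintype ι] [DecidableEq ι] (M : Matrix ι ι ℂ) (h : M * M = M) :
    ∃ n : ℕ, M.trace = n := by
  have h1 : IsIdempotentElem (Matrix.toLin' M) := by
    show Matrix.toLin' M * Matrix.toLin' M = Matrix.toLin' M
    rw [Module.End.mul_eq_comp, ← Matrix.toLin'_mul, h]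
  refine ⟨Module.finrank ℂ (LinearMap.range (Matrix.toLin' M)), ?_⟩
  rw [← (LinearMap.IsIdempotentElem.isProj_range _ h1).trace]
  simp

universe u

section
variable {A : Type u} [NonUnitalRing A]

/-- the trace of a matrix over `A` under a homomorphism to the two by two matrices -/
noncomputable def trM (φ : A →ₙ+* M2) {ι : Type} [Fintype ι] (x : Matrix ι ι A) : ℂ :=
  ∑ i, (φ (x i i)).trace

theorem trM_comm (φ : A →ₙ+* M2) {ι κ : Type} [Fintype ι] [Fintype κ] (x : Matrix ι κ A)
    (y : Matrix κ ι A) : trM φ (x * y) = trM φ (y * x) := by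
  unfold trM
  simp only [Matrix.mul_apply, map_sum, map_mul, Matrix.trace_sum]
  rw [Finset.sum_comm]
  refine Finset.sum_congr rfl fun j _ => Finset.sum_congr rfl fun i _ => ?_
  exact Matrix.trace_mul_comm _ _

theorem trM_nat (φ : A →ₙ+* M2) {n : ℕ} (x : Matrix (Fin n) (Fin n) A) (hx : x * x = x) :
    ∃ k : ℕ, trM φ x = k := by
  obtain ⟨k, hk⟩ := nat_trace (Matrix.of fun (p r : Fin n × Fin 2) => φ (x p.1 r.1) p.2 r.2) (by
    ext p r
    rw [Matrix.mul_apply, Fintype.sum_prod_type]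
    simp only [Matrix.of_apply]
    have h1 := congrFun (congrFun hx p.1) r.1
    have h2 := congrArg φ h1
    rw [Matrix.mul_apply, map_sum] at h2
    have h3 := congrFun (congrFun h2 p.2) r.2
    rw [← h3, Matrix.sum_apply]
    refine Finset.sum_congr rfl fun i _ => ?_
    rw [map_mul, Matrix.mul_apply])
  refine ⟨k, ?_⟩
  rw [← hk, Matrix.trace, Fintype.sum_prod_type]
  rfl

theorem trM_blk (φ : A →ₙ+* M2) {m n : ℕ} (x : Matrix (Fin m) (Fin m) A)
    (y : Matrix (Fin n) (Fin n) A) : trM φ (blk x y) = trM φ x + trM φ y := by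
  unfold trM blk
  rw [Fin.sum_univ_add]
  simp

/-- the rank on `V(A)` defined by a homomorphism -/
noncomputable def rkC (φ : A →ₙ+* M2) (c : VV A) : ℂ :=
  Quotient.lift (s := Idem.setoid A) (fun e : Idem A => trM φ e.mat) (by
    intro e f h
    obtain ⟨x, y, h1, h2⟩ := (Idem.equiv_iff e f).1 h
    show trM φ e.mat = trM φ f.mat
    rw [← h1, ← h2, trM_comm]) c

theorem rkC_mk (φ : A →ₙ+* M2) (e : Idem A) : rkC φ (VV.mk e) = trM φ e.mat := rfl

theorem rkC_add (φ : A →ₙ+* M2) (a b : VV A) : rkC φ (a + b) = rkC φ a + rkC φ b := by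
  obtain ⟨e, rfl⟩ := Quotient.exists_rep a
  obtain ⟨f, rfl⟩ := Quotient.exists_rep b
  exact trM_blk φ e.mat f.mat

theorem rkC_nat (φ : A →ₙ+* M2) (a : VV A) : ∃ k : ℕ, rkC φ a = k := by
  obtain ⟨e, rfl⟩ := Quotient.exists_rep a
  exact trM_nat φ e.mat e.idem

/-- the rank as a natural number -/
noncomputable def rk (φ : A →ₙ+* M2) (a : VV A) : ℕ := (rkC_nat φ a).choose

theorem rk_cast (φ : A →ₙ+* M2) (a : VV A) : (rk φ a : ℂ) = rkC φ a :=
  (rkC_nat φ a).choose_spec.symm

theorem rk_add (φ : A →ₙ+* M2) (a b : VV A) : rk φ (a + b) = rk φ a + rk φ b := by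
  have : ((rk φ (a + b) : ℕ) : ℂ) = ((rk φ a + rk φ b : ℕ) : ℂ) := by
    rw [Nat.cast_add, rk_cast, rk_cast, rk_cast, rkC_add]
  exact_mod_cast this

theorem rk_le (φ : A →ₙ+* M2) {a b : VV A} (h : Le a b) : rk φ a ≤ rk φ b := by
  obtain ⟨c, rfl⟩ := h
  rw [rk_add]
  exact Nat.le_add_right _ _

end

variable (F : Fam) (I : Type)

/-- evaluation at a point -/
noncomputable def ev (t : I → T) : Alg F I →ₙ+* M2 where
  toFun f := f.1 t
  map_mul' _ _ := rfl
  map_zero' := rfl
  map_add' _ _ := rfl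

/-- evaluation followed by multiplication by an idempotent -/
noncomputable def evq (t : I → T) (q : M2) (hq : q * q = q) (hc : ∀ i, q * F.P (t i) = F.P (t i) * q) :
    Alg F I →ₙ+* M2 where
  toFun f := f.1 t * q
  map_mul' f g := by
    show f.1 t * g.1 t * q = f.1 t * q * (g.1 t * q)
    have h := g.2 t q hc
    rw [mul_assoc (f.1 t) q, ← mul_assoc q, h, mul_assoc, mul_assoc, hq]
  map_zero' := by
    show (0 : M2) * q = 0
    exact zero_mul q
  map_add' f g := by
    show (f.1 t + g.1 t) * q = f.1 t * q + g.1 t * q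
    exact add_mul _ _ _

theorem compl_idem {q : M2} (hq : q * q = q) : (1 - q) * (1 - q) = 1 - q := by
  rw [mul_sub, sub_mul, one_mul, sub_mul, one_mul, hq]
  simp

theorem compl_comm {q r : M2} (hc : q * r = r * q) : (1 - q) * r = r * (1 - q) := by
  rw [sub_mul, mul_sub, hc, one_mul, mul_one]

theorem rk_split (t : I → T) (q : M2) (hq : q * q = q)
    (hc : ∀ i, q * F.P (t i) = F.P (t i) * q) (c : VV (Alg F I)) :
    rk (ev F I t) c = rk (evq F I t q hq hc) c +
      rk (evq F I t (1 - q) (compl_idem hq) fun i => compl_comm (hc i)) c := by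
  have : ((rk (ev F I t) c : ℕ) : ℂ) = ((rk (evq F I t q hq hc) c +
      rk (evq F I t (1 - q) (compl_idem hq) fun i => compl_comm (hc i)) c : ℕ) : ℂ) := by
    rw [Nat.cast_add, rk_cast, rk_cast, rk_cast]
    obtain ⟨e, rfl⟩ := Quotient.exists_rep c
    show trM _ e.mat = trM _ e.mat + trM _ e.mat
    unfold trM
    rw [← Finset.sum_add_distrib]
    refine Finset.sum_congr rfl fun i _ => ?_
    rw [← Matrix.trace_add]
    congr 1
    show (e.mat i i).1 t = (e.mat i i).1 t * q + (e.mat i i).1 t * (1 - q)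
    rw [← mul_add]
    simp
  exact_mod_cast this

theorem rk_cont (c : VV (Alg F I)) : Continuous fun t => rk (ev F I t) c := by
  have h1 : Continuous fun t => ((rk (ev F I t) c : ℕ) : ℂ) := by
    have h0 : ∃ e : Idem (Alg F I), c = VV.mk e := by
      obtain ⟨e, he⟩ := Quotient.exists_rep c
      exact ⟨e, he.symm⟩
    obtain ⟨e, rfl⟩ := h0
    have : (fun t => ((rk (ev F I t) (VV.mk e) : ℕ) : ℂ)) =
        fun t => ∑ i, ((e.mat i i).1 t).trace := by
      funext t
      rw [rk_cast]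
      rfl
    rw [this]
    refine continuous_finsetSum _ fun i _ => ?_
    exact Continuous.matrix_trace (e.mat i i).1.continuous
  have h2 : Continuous fun t => ((rk (ev F I t) c : ℕ) : ℝ) := by
    have h3 := Complex.continuous_re.comp h1
    have h4 : (Complex.re ∘ fun t => ((rk (ev F I t) c : ℕ) : ℂ)) =
        fun t => ((rk (ev F I t) c : ℕ) : ℝ) := by
      funext t
      simp
    rwa [h4] at h3
  exact Nat.isClosedEmbedding_coe_real.isEmbedding.continuous_iff.2 h2

/-- a continuous function to the natural numbers depends on finitely many coordinates -/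
theorem fin_dep (h : (I → T) → ℕ) (hc : Continuous h) : ∃ S : Finset I, ∀ t t' : I → T,
    (∀ i ∈ S, t i = t' i) → h t = h t' := by
  classical
  have key : ∃ S : Finset I, ∀ t ∈ (Set.univ : Set (I → T)), ∀ t' : I → T,
      (∀ i ∈ S, t i = t' i) → h t = h t' := by
    refine IsCompact.induction_on (p := fun s : Set (I → T) => ∃ S : Finset I, ∀ t ∈ s,
      ∀ t' : I → T, (∀ i ∈ S, t i = t' i) → h t = h t') isCompact_univ ?_ ?_ ?_ ?_
    · exact ⟨∅, fun t ht => ht.elim⟩
    · rintro s s' hss ⟨S, hS⟩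
      exact ⟨S, fun t ht => hS t (hss ht)⟩
    · rintro s s' ⟨S, hS⟩ ⟨S', hS'⟩
      refine ⟨S ∪ S', fun t ht t' htt => ?_⟩
      rcases ht with ht | ht
      · exact hS t ht t' fun i hi => htt i (Finset.mem_union_left _ hi)
      · exact hS' t ht t' fun i hi => htt i (Finset.mem_union_right _ hi)
    · intro t₀ _
      have hopen : IsOpen {t | h t = h t₀} := by
        have := (isOpen_discrete {h t₀}).preimage hc
        exact this
      obtain ⟨S, u, hu, hsub⟩ := isOpen_pi_iff.1 hopen t₀ rfl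
      refine ⟨(S : Set I).pi u, ?_, S, ?_⟩
      · rw [nhdsWithin_univ]
        refine (isOpen_set_pi S.finite_toSet fun i hi => (hu i hi).1).mem_nhds ?_
        exact fun i hi => (hu i hi).2
      · intro t ht t' htt
        have h1 : h t = h t₀ := hsub ht
        have h2 : h t' = h t₀ := hsub (fun i hi => by rw [← htt i hi]; exact ht i hi)
        rw [h1, h2]
  obtain ⟨S, hS⟩ := key
  exact ⟨S, fun t t' => hS t (Set.mem_univ t) t'⟩

/-! ### the classes of the projections -/

/-- the projection `t ↦ P (t i)` of the algebra -/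
noncomputable def pr (i : I) : Alg F I :=
  ⟨⟨fun t => F.P (t i), by
    have := F.cont
    fun_prop⟩, fun t y hy => hy i⟩

theorem pr_idem (i : I) : pr F I i * pr F I i = pr F I i := by
  apply Subtype.ext
  ext1 t
  exact F.idem (t i)

theorem one_sub_idem {A : Type u} [Ring A] {p : A} (hp : p * p = p) :
    (1 - p) * (1 - p) = 1 - p := by
  rw [mul_sub, sub_mul, one_mul, sub_mul, one_mul, hp]
  simp

/-- a one by one matrix -/
def m1 {A : Type u} (p : A) : Matrix (Fin 1) (Fin 1) A := Matrix.of fun _ _ => p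

theorem m1_mul {A : Type u} [NonUnitalRing A] (p q : A) : m1 p * m1 q = m1 (p * q) := by
  ext i j
  rw [Matrix.mul_apply, Fin.sum_univ_one]
  rfl

/-- the class of an idempotent element -/
def cl1 {A : Type u} [NonUnitalRing A] (p : A) (hp : p * p = p) : VV A :=
  VV.mk ⟨1, m1 p, by rw [m1_mul, hp]⟩

theorem cl1_add {A : Type u} [Ring A] (p : A) (hp : p * p = p) :
    cl1 p hp + cl1 (1 - p) (one_sub_idem hp) = cl1 (1 : A) (one_mul 1) := by
  have h1 : m1 p * m1 p = m1 p := by rw [m1_mul, hp]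
  have h2 : m1 (1 - p) * m1 (1 - p) = m1 (1 - p) := by rw [m1_mul, one_sub_idem hp]
  have h3 : m1 (1 : A) * m1 1 = m1 1 := by rw [m1_mul, one_mul]
  show VV.mk _ + VV.mk _ = VV.mk _
  rw [VV.add_mk, VV.mk_eq]
  show Eqv (blk (m1 p) (m1 (1 - p))) (m1 1)
  refine Eqv.trans (blk_idem h1 h2) h3 (Eqv.blk h1 h2).symm ?_
  refine ⟨Matrix.fromRows (m1 p) (m1 (1 - p)), Matrix.fromCols (m1 p) (m1 (1 - p)), ?_, ?_⟩
  · rw [rowcol, m1_mul, m1_mul, m1_mul, m1_mul, hp, one_sub_idem hp, mul_sub, mul_one, hp,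
      sub_self, sub_mul, one_mul, hp, sub_self]
    rfl
  · rw [colrow, m1_mul, m1_mul, hp, one_sub_idem hp]
    ext i j
    show p + (1 - p) = 1
    abel

theorem rkC_cl1 {A : Type u} [NonUnitalRing A] (φ : A →ₙ+* M2) (p : A) (hp : p * p = p) :
    rkC φ (cl1 p hp) = (φ p).trace := by
  show trM φ (m1 p) = _
  rw [trM, Fin.sum_univ_one]
  rfl

end Pool.Agent.Y78.NK
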