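import Pool.Agent.H494R3.NK.Defs

set_option autoImplicit false

/-!
The C*-algebra of all continuous functions `f` on a power of the Cantor space with values in the
two by two matrices such that `f t` lies in the double commutant of the projections `P (t i)`.
-/

namespace Pool.Agent.Y78.NK

open Pool.Agent.H494R3.NK
open scoped Matrix.Norms.L2Operator

/-- two by two matrices -/
abbrev M2 : Type := Matrix (Fin 2) (Fin 2) ℂ

/-- the Cantor space -/
abbrev T : Type := ℕ → Bool

/-- a continuous family of projections of rank zero or one -/
structure Fam where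
  P : T → M2
  cont : Continuous P
  idem : ∀ s, P s * P s = P s
  sa : ∀ s, star (P s) = P s
  rk : ∀ s, P s = 0 ∨ (P s).trace = 1

variable (F : Fam) (I : Type)

/-- membership in the double commutant of the projections `P (t i)` -/
def Good (t : I → T) (x : M2) : Prop :=
  ∀ y : M2, (∀ i, y * F.P (t i) = F.P (t i) * y) → y * x = x * y

/-- The algebra. -/
def Alg : StarSubalgebra ℂ C(I → T, M2) where
  carrier := {f | ∀ t, Good F I t (f t)}
  mul_mem' := by
    intro f g hf hg t y hy
    show y * (f t * g t) = f t * g t * y
    rw [← mul_assoc, hf t y hy, mul_assoc, hg t y hy, mul_assoc]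
  add_mem' := by
    intro f g hf hg t y hy
    show y * (f t + g t) = (f t + g t) * y
    rw [mul_add, add_mul, hf t y hy, hg t y hy]
  algebraMap_mem' := by
    intro r t y hy
    show y * algebraMap ℂ M2 r = algebraMap ℂ M2 r * y
    exact (Algebra.commutes r y).symm
  star_mem' := by
    intro f hf t y hy
    show y * star (f t) = star (f t) * y
    have h1 : star y * f t = f t * star y := by
      apply hf t
      intro i
      have := congrArg star (hy i)
      rw [star_mul, star_mul, F.sa] at this
      exact this.symm
    have := congrArg star h1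
    rw [star_mul, star_mul, star_star] at this
    exact this.symm

theorem mem_alg {f : C(I → T, M2)} : f ∈ Alg F I ↔ ∀ t, Good F I t (f t) := Iff.rfl

instance alg_closed : IsClosed (Alg F I : Set C(I → T, M2)) := by
  have : (Alg F I : Set C(I → T, M2)) = ⋂ (t : I → T) (y : M2)
      (_ : ∀ i, y * F.P (t i) = F.P (t i) * y), {f | y * f t = f t * y} := by
    ext f
    simp only [Set.mem_iInter, Set.mem_ofPred_eq]
    rfl
  rw [this]
  refine isClosed_iInter fun t => isClosed_iInter fun y => isClosed_iInter fun _ => ?_
  refine isClosed_eq ?_ ?_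
  · exact continuous_const.mul (continuous_eval_const t)
  · exact (continuous_eval_const t).mul continuous_const

noncomputable instance : CStarAlgebra (Alg F I) := inferInstance

/-! ### linear algebra -/

theorem span_of {q x : M2} {α β : ℂ} (h1 : x 0 1 = β * q 0 1) (h2 : x 1 0 = β * q 1 0)
    (h3 : x 0 0 - x 1 1 = β * (q 0 0 - q 1 1)) (h4 : α = x 1 1 - β * q 1 1) :
    x = algebraMap ℂ M2 α + β • q := by
  ext i j
  rw [Matrix.add_apply, Matrix.smul_apply, Matrix.algebraMap_matrix_apply, smul_eq_mul]
  fin_cases i <;> fin_cases j
  · simp only [Fin.zero_eta, if_true, Algebra.algebraMap_self, RingHom.id_apply]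
    rw [h4]
    linear_combination h3
  · simpa using h1
  · simpa using h2
  · simp only [Fin.mk_one, if_true, Algebra.algebraMap_self, RingHom.id_apply]
    rw [h4]
    ring

/-- the commutant of a matrix which is not scalar -/
theorem comm_span (q x : M2) (hq : ∀ c : ℂ, q ≠ algebraMap ℂ M2 c) (h : q * x = x * q) :
    ∃ α β : ℂ, x = algebraMap ℂ M2 α + β • q := by
  have e00 := congrFun (congrFun h 0) 0
  have e01 := congrFun (congrFun h 0) 1
  have e10 := congrFun (congrFun h 1) 0
  simp only [Matrix.mul_apply, Fin.sum_univ_two] at e00 e01 e10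
  by_cases h01 : q 0 1 = 0
  · by_cases h10 : q 1 0 = 0
    · have hd : q 0 0 - q 1 1 ≠ 0 := by
        intro hd
        apply hq (q 1 1)
        have := span_of (q := q) (x := q) (α := q 1 1) (β := 0) (by rw [h01]; ring)
          (by rw [h10]; ring) (by rw [hd]; ring) (by ring)
        simpa using this
      refine ⟨_, (x 0 0 - x 1 1) / (q 0 0 - q 1 1), span_of ?_ ?_ ?_ rfl⟩
      · have : x 0 1 * (q 0 0 - q 1 1) = 0 := by
          rw [h01] at e01
          linear_combination e01
        rw [h01, mul_zero]
        exact (mul_eq_zero.1 this).resolve_right hd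
      · have : x 1 0 * (q 0 0 - q 1 1) = 0 := by
          rw [h10] at e10
          linear_combination -e10
        rw [h10, mul_zero]
        exact (mul_eq_zero.1 this).resolve_right hd
      · field_simp
    · refine ⟨_, x 1 0 / q 1 0, span_of ?_ ?_ ?_ rfl⟩
      · rw [h01] at e00 ⊢
        have : x 0 1 * q 1 0 = 0 := by linear_combination -e00
        rw [mul_zero]
        exact (mul_eq_zero.1 this).resolve_right h10
      · field_simp
      · rw [div_mul_eq_mul_div, eq_div_iff h10]
        linear_combination e10
  · refine ⟨_, x 0 1 / q 0 1, span_of ?_ ?_ ?_ rfl⟩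
    · field_simp
    · rw [div_mul_eq_mul_div, eq_div_iff h01]
      linear_combination e00
    · rw [div_mul_eq_mul_div, eq_div_iff h01]
      linear_combination -e01

theorem Fam.not_scalar (s : T) (h : (F.P s).trace = 1) (c : ℂ) : F.P s ≠ algebraMap ℂ M2 c := by
  intro hc
  have h1 := F.idem s
  rw [hc] at h h1
  rw [← map_mul] at h1
  have h2 : c * c = c := by
    have := congrFun (congrFun h1 0) 0
    simpa [Matrix.algebraMap_matrix_apply] using this
  have h3 : c + c = 1 := by
    have : (algebraMap ℂ M2 c).trace = c + c := by
      rw [Matrix.trace, Fin.sum_univ_two]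
      simp [Matrix.algebraMap_matrix_apply]
    rw [← this, h]
  have h4 : c = 1 / 2 := by linear_combination h3 / 2
  rw [h4] at h2
  norm_num at h2

end Pool.Agent.Y78.NK
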