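import Pool.Agent.Y78.NK.Alg

set_option autoImplicit false

/-!
The algebra has real rank zero.
-/

namespace Pool.Agent.Y78.NK

open Pool.Agent.H494R3.NK Polynomial
open scoped Matrix.Norms.L2Operator

theorem scalar_of_comm (x : M2) (h : ∀ y : M2, y * x = x * y) : ∃ c : ℂ, x = algebraMap ℂ M2 c := by
  have h1 := h !![1, 0; 0, 0]
  have h2 := h !![0, 1; 0, 0]
  have a := congrFun (congrFun h1 0) 1
  have b := congrFun (congrFun h1 1) 0
  have c := congrFun (congrFun h2 0) 1
  simp [Matrix.mul_apply, Fin.sum_univ_two] at a b c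
  refine ⟨x 0 0, ?_⟩
  ext i j
  rw [Matrix.algebraMap_matrix_apply]
  fin_cases i <;> fin_cases j <;> simp [a, b, c]

variable (F : Fam) (I : Type)

theorem good_scalar (t : I → T) (c : ℂ) : Good F I t (algebraMap ℂ M2 c) :=
  fun y _ => (Algebra.commutes c y).symm

theorem good_proj (t : I → T) (i : I) (α β : ℂ) :
    Good F I t (algebraMap ℂ M2 α + β • F.P (t i)) := by
  intro y hy
  rw [mul_add, add_mul, mul_smul_comm, smul_mul_assoc, hy i, Algebra.commutes]

theorem good_noncomm (t : I → T) (i j : I)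
    (h : F.P (t i) * F.P (t j) ≠ F.P (t j) * F.P (t i)) (x : M2) : Good F I t x := by
  intro y hy
  have h1 : ∀ c : ℂ, F.P (t i) ≠ algebraMap ℂ M2 c := by
    intro c hc
    apply h
    rw [hc, Algebra.commutes]
  obtain ⟨α, β, rfl⟩ := comm_span (F.P (t i)) y h1 (hy i).symm
  have h2 := hy j
  rw [add_mul, mul_add, smul_mul_assoc, mul_smul_comm, Algebra.commutes, add_right_inj,
    ← sub_eq_zero, ← smul_sub, smul_eq_zero, sub_eq_zero] at h2
  rcases h2 with h2 | h2
  · rw [h2, zero_smul, add_zero, Algebra.commutes]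
  · exact absurd h2 h

theorem loc_approx (f : C(I → T, M2)) (hf : f ∈ Alg F I) (hs : ∀ t, star (f t) = f t) (t₀ : I → T)
    (ε : ℝ) (hε : 0 < ε) : ∃ (V : Set (I → T)) (_ : IsOpen V) (_ : t₀ ∈ V) (g : C(I → T, M2))
      (p : ℂ[X]), p ≠ 0 ∧ ∀ t ∈ V, Good F I t (g t) ∧ star (g t) = g t ∧ aeval (g t) p = 0 ∧
        ‖f t - g t‖ < ε := by
  have hopen : ∀ g : C(I → T, M2), g t₀ = f t₀ →
      ∃ V : Set (I → T), IsOpen V ∧ t₀ ∈ V ∧ ∀ t ∈ V, ‖f t - g t‖ < ε := by
    intro g hg
    refine ⟨{t | ‖f t - g t‖ < ε}, ?_, ?_, fun t ht => ht⟩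
    · exact isOpen_lt (by fun_prop) continuous_const
    · show ‖f t₀ - g t₀‖ < ε
      rw [hg, sub_self, norm_zero]
      exact hε
  by_cases hc : ∀ i j, F.P (t₀ i) * F.P (t₀ j) = F.P (t₀ j) * F.P (t₀ i)
  · by_cases h0 : ∀ i, F.P (t₀ i) = 0
    · obtain ⟨c, hcc⟩ := scalar_of_comm (f t₀) fun y => hf t₀ y (fun i => by rw [h0 i]; simp)
      obtain ⟨V, hV, h1, h2⟩ := hopen (ContinuousMap.const _ (algebraMap ℂ M2 c)) hcc.symm
      refine ⟨V, hV, h1, _, X - C c, X_sub_C_ne_zero c, fun t ht => ⟨good_scalar F I t c, ?_, ?_,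
        h2 t ht⟩⟩
      · have := hs t₀
        rw [hcc] at this
        exact this
      · simp
    · push Not at h0
      obtain ⟨i, hi⟩ := h0
      have htr : (F.P (t₀ i)).trace = 1 := (F.rk _).resolve_left hi
      have hns := F.not_scalar (t₀ i) htr
      obtain ⟨α, β, hx⟩ := comm_span (F.P (t₀ i)) (f t₀) hns
        (hf t₀ (F.P (t₀ i)) (fun j => hc i j))
      have hst : star β = β ∧ star α = α := by
        have h1 := hs t₀
        rw [hx, star_add, star_smul, F.sa] at h1
        have h2 : star (algebraMap ℂ M2 α) = algebraMap ℂ M2 (star α) :=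
          (algebraMap_star_comm α).symm
        rw [h2] at h1
        by_cases hb : star β = β
        · refine ⟨hb, ?_⟩
          rw [hb, add_left_inj] at h1
          exact (algebraMap ℂ M2).injective h1
        · exfalso
          have hb' : star β - β ≠ 0 := sub_ne_zero.2 hb
          apply hns ((α - star α) / (star β - β))
          have h3 : (star β - β) • F.P (t₀ i) = algebraMap ℂ M2 (α - star α) := by
            rw [sub_smul, map_sub, sub_eq_sub_iff_add_eq_add, add_comm, h1]
          rw [div_eq_inv_mul, map_mul, ← h3, ← Algebra.smul_def, smul_smul,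
            inv_mul_cancel₀ hb', one_smul]
      let g : C(I → T, M2) := ⟨fun t => algebraMap ℂ M2 α + β • F.P (t i), by
        have := F.cont
        fun_prop⟩
      obtain ⟨V, hV, h1, h2⟩ := hopen g hx.symm
      refine ⟨V, hV, h1, g, (X - C α) * (X - C (α + β)),
        mul_ne_zero (X_sub_C_ne_zero _) (X_sub_C_ne_zero _), fun t ht => ⟨good_proj F I t i α β,
          ?_, ?_, h2 t ht⟩⟩
      · show star (algebraMap ℂ M2 α + β • F.P (t i)) = algebraMap ℂ M2 α + β • F.P (t i)
        rw [star_add, star_smul, F.sa, hst.1, ← algebraMap_star_comm, hst.2]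
      · show aeval (algebraMap ℂ M2 α + β • F.P (t i)) ((X - C α) * (X - C (α + β))) = 0
        rw [map_mul, map_sub, map_sub, aeval_X, aeval_C, aeval_C, map_add]
        have e1 : algebraMap ℂ M2 α + β • F.P (t i) - algebraMap ℂ M2 α = β • F.P (t i) := by abel
        have e2 : algebraMap ℂ M2 α + β • F.P (t i) - (algebraMap ℂ M2 α + algebraMap ℂ M2 β) =
            β • F.P (t i) - β • (1 : M2) := by
          rw [← Algebra.algebraMap_eq_smul_one]
          abel
        rw [e1, e2, mul_sub, smul_mul_smul_comm, F.idem, smul_mul_smul_comm, mul_one, sub_self]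
  · push Not at hc
    obtain ⟨i, j, hij⟩ := hc
    obtain ⟨V, hV, h1, h2⟩ := hopen (ContinuousMap.const _ (f t₀)) rfl
    refine ⟨V ∩ {t | F.P (t i) * F.P (t j) ≠ F.P (t j) * F.P (t i)}, hV.inter ?_, ⟨h1, hij⟩, _,
      (f t₀).charpoly, (Matrix.charpoly_monic _).ne_zero, fun t ht =>
        ⟨good_noncomm F I t i j ht.2 _, hs t₀, ?_, h2 t ht.1⟩⟩
    · have := F.cont
      exact isOpen_ne_fun (by fun_prop) (by fun_prop)
    · exact Matrix.aeval_self_charpoly (f t₀)

theorem glob_approx (f : C(I → T, M2)) (hf : f ∈ Alg F I) (hs : ∀ t, star (f t) = f t)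
    (ε : ℝ) (hε : 0 < ε) : ∃ (g : C(I → T, M2)) (p : ℂ[X]), p ≠ 0 ∧ ∀ t, Good F I t (g t) ∧
      star (g t) = g t ∧ aeval (g t) p = 0 ∧ ‖f t - g t‖ < ε := by
  classical
  have key : ∃ (V : Set (I → T)) (_ : IsClopen V) (_ : Set.univ ⊆ V) (g : C(I → T, M2))
      (p : ℂ[X]), p ≠ 0 ∧ ∀ t ∈ V, Good F I t (g t) ∧ star (g t) = g t ∧ aeval (g t) p = 0 ∧
        ‖f t - g t‖ < ε := by
    refine IsCompact.induction_on (p := fun s : Set (I → T) => ∃ (V : Set (I → T)) (_ : IsClopen V)
      (_ : s ⊆ V) (g : C(I → T, M2)) (p : ℂ[X]), p ≠ 0 ∧ ∀ t ∈ V, Good F I t (g t) ∧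
        star (g t) = g t ∧ aeval (g t) p = 0 ∧ ‖f t - g t‖ < ε) isCompact_univ ?_ ?_ ?_ ?_
    · exact ⟨∅, isClopen_empty, Set.empty_subset _, 0, 1, one_ne_zero, fun t ht => ht.elim⟩
    · rintro s s' hss ⟨V, hV, hsV, h⟩
      exact ⟨V, hV, hss.trans hsV, h⟩
    · rintro s s' ⟨V, hV, hsV, g, p, hp, h⟩ ⟨V', hV', hsV', g', p', hp', h'⟩
      refine ⟨V ∪ V', hV.union hV', Set.union_subset_union hsV hsV',
        ⟨V.piecewise g g', ?_⟩, p * p', mul_ne_zero hp hp', ?_⟩
      · refine Continuous.piecewise ?_ g.continuous g'.continuous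
        intro t ht
        rw [hV.frontier_eq] at ht
        exact ht.elim
      · intro t ht
        show Good F I t (V.piecewise g g' t) ∧ star (V.piecewise g g' t) = V.piecewise g g' t ∧
          aeval (V.piecewise g g' t) (p * p') = 0 ∧ ‖f t - V.piecewise g g' t‖ < ε
        by_cases hV1 : t ∈ V
        · rw [Set.piecewise_eq_of_mem _ _ _ hV1]
          obtain ⟨h1, h2, h3, h4⟩ := h t hV1
          exact ⟨h1, h2, by rw [map_mul, h3, zero_mul], h4⟩
        · rw [Set.piecewise_eq_of_notMem _ _ _ hV1]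
          obtain ⟨h1, h2, h3, h4⟩ := h' t (ht.resolve_left hV1)
          exact ⟨h1, h2, by rw [map_mul, h3, mul_zero], h4⟩
    · intro t₀ _
      obtain ⟨V, hV, h1, g, p, hp, h⟩ := loc_approx F I f hf hs t₀ ε hε
      obtain ⟨W, hW, hW1, hW2⟩ := compact_exists_isClopen_in_isOpen hV h1
      refine ⟨W, ?_, W, hW, subset_rfl, g, p, hp, fun t ht => h t (hW2 ht)⟩
      rw [nhdsWithin_univ]
      exact hW.isOpen.mem_nhds hW1
  obtain ⟨V, _, hV, g, p, hp, h⟩ := key
  exact ⟨g, p, hp, fun t => h t (hV (Set.mem_univ t))⟩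

/-- spectra of algebraic elements are finite -/
theorem spectrum_finite {B : Type} [Ring B] [Algebra ℂ B] (y : B) (p : ℂ[X]) (hp : p ≠ 0)
    (h : aeval y p = 0) : (spectrum ℂ y).Finite := by
  rcases subsingleton_or_nontrivial B with hB | hB
  · have : spectrum ℂ y = ∅ := by
      ext k
      simp only [Set.mem_empty_iff_false, iff_false]
      intro hk
      exact hk (isUnit_of_subsingleton _)
    rw [this]
    exact Set.finite_empty
  · refine (p.roots.toFinset.finite_toSet).subset ?_
    intro k hk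
    have h1 := spectrum.subset_polynomial_aeval y p ⟨k, hk, rfl⟩
    rw [h, spectrum.zero_eq, Set.mem_singleton_iff] at h1
    simp only [Finset.mem_coe, Multiset.mem_toFinset]
    exact (mem_roots hp).2 h1

/-- a unital C*-algebra in which self-adjoint elements are limits of algebraic ones has real rank
zero -/
theorem rr0_of {A : Type} [CStarAlgebra A] (h : ∀ f : A, star f = f → ∀ ε : ℝ, 0 < ε →
    ∃ (g : A) (p : ℂ[X]), p ≠ 0 ∧ star g = g ∧ aeval g p = 0 ∧ ‖f - g‖ < ε) : RealRankZero A := by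
  intro x hx ε hε
  obtain ⟨l, a, rfl⟩ : ∃ (l : ℂ) (a : A), x = Unitization.inl l + Unitization.inr a :=
    ⟨x.fst, x.snd, (Unitization.inl_fst_add_inr_snd_eq x).symm⟩
  have hx1 : star l = l ∧ star a = a := by
    have h1 : star (Unitization.inl l + Unitization.inr a : Unitization ℂ A) =
      Unitization.inl l + Unitization.inr a := hx
    constructor
    · have := congrArg (fun z : Unitization ℂ A => z.fst) h1
      simpa using this
    · have := congrArg (fun z : Unitization ℂ A => z.snd) h1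
      simpa using this
  obtain ⟨g, p, hp, hg1, hg2, hg3⟩ := h (algebraMap ℂ A l + a)
    (by rw [star_add, hx1.2, ← algebraMap_star_comm, hx1.1]) ε hε
  refine ⟨Unitization.inl l + Unitization.inr (g - algebraMap ℂ A l), ?_, ?_, ?_⟩
  · show star _ = _
    rw [star_add, ← Unitization.inr_star, star_sub, hg1, ← algebraMap_star_comm, hx1.1]
    congr 1
    ext
    · simp [hx1.1]
    · simp
  · -- the homomorphism to `A`
    let π : Unitization ℂ A →ₐ[ℂ] A := Unitization.lift (NonUnitalAlgHom.id ℂ A)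
    have hπ : ∀ (c : ℂ) (b : A), π (Unitization.inl c + Unitization.inr b) =
        algebraMap ℂ A c + b := by
      intro c b
      simp [π]
    have hinj : ∀ z : Unitization ℂ A, z.fst = 0 → π z = 0 → z = 0 := by
      intro z hz hz'
      rw [← Unitization.inl_fst_add_inr_snd_eq z, hπ, hz] at hz'
      rw [← Unitization.inl_fst_add_inr_snd_eq z, hz]
      simp only [map_zero, zero_add] at hz'
      rw [hz']
      simp
    refine spectrum_finite _ (p * (X - C l)) (mul_ne_zero hp (X_sub_C_ne_zero l)) ?_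
    apply hinj
    · have h1 : ∀ z : Unitization ℂ A, z.fst = Unitization.fstHom ℂ A z := fun z => rfl
      rw [h1, map_mul, map_mul]
      have h2 : ∀ b : A, (Unitization.fstHom ℂ A) (Unitization.inl l + Unitization.inr b) = l := by
        intro b
        simp
      have : (Unitization.fstHom ℂ A) ((aeval (Unitization.inl l +
          Unitization.inr (g - algebraMap ℂ A l))) (X - C l)) = 0 := by
        rw [map_sub, aeval_X, aeval_C, map_sub, h2, AlgHom.commutes]
        simp
      rw [this, mul_zero]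
    · rw [← aeval_algHom_apply, hπ]
      have : algebraMap ℂ A l + (g - algebraMap ℂ A l) = g := by abel
      rw [this, map_mul, hg2, zero_mul]
  · have : (Unitization.inl l + Unitization.inr a : Unitization ℂ A) -
        (Unitization.inl l + Unitization.inr (g - algebraMap ℂ A l)) =
        Unitization.inr (algebraMap ℂ A l + a - g) := by
      rw [add_sub_add_left_eq_sub, ← Unitization.inr_sub]
      congr 1
      abel
    rw [this, Unitization.norm_inr]
    exact hg3

/-- the algebra has real rank zero -/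
theorem alg_rr0 : RealRankZero (Alg F I) := by
  apply rr0_of
  intro f hf ε hε
  have hs : ∀ t, star (f.1 t) = f.1 t := by
    intro t
    have h1 : star f.1 = f.1 := congrArg Subtype.val hf
    exact congrArg (fun h : C(I → T, M2) => h t) h1
  obtain ⟨g, p, hp, h⟩ := glob_approx F I f.1 f.2 hs (ε / 2) (by positivity)
  refine ⟨⟨g, fun t => (h t).1⟩, p, hp, ?_, ?_, ?_⟩
  · apply Subtype.ext
    ext1 t
    exact (h t).2.1
  · apply Subtype.ext
    have h1 : (Alg F I).subtype (aeval (⟨g, fun t => (h t).1⟩ : Alg F I) p) = aeval g p := by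
      have := (aeval_algHom_apply (Alg F I).subtype.toAlgHom (⟨g, fun t => (h t).1⟩ : Alg F I) p)
      exact this.symm
    refine h1.trans ?_
    ext1 t
    have h2 := aeval_algHom_apply ((Pi.evalAlgHom ℂ (fun _ : I → T => M2) t).comp
      (ContinuousMap.coeFnAlgHom ℂ)) g p
    exact h2.symm.trans (h t).2.2.1
  · have h3 : ‖f.1 - g‖ ≤ ε / 2 := by
      rw [ContinuousMap.norm_le _ (by positivity)]
      intro t
      exact (h t).2.2.2.le
    exact lt_of_le_of_lt h3 (by linarith)

end Pool.Agent.Y78.NK
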